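import Pool.Agent.Helper454.Bott.ExOneB

set_option autoImplicit false
open scoped Manifold ContDiff Topology
open Pool.Agent.Helper454.EngelDefs Pool.Agent.Helper454.Bott

namespace Pool.Agent.Results.MP_d7c110_gt.NotPerturbable

lemma finrank_dist {k : ℕ} {D : (x : BM ExOne.A) → Submodule ℝ (TangentSpace (𝓡 4) x)}
    (h : IsDistribution k D) (x : BM ExOne.A) : Module.finrank ℝ (D x) = k := by
  obtain ⟨X, -, hX⟩ := h x
  obtain ⟨h1, h2⟩ := hX.self_of_nhds
  rw [h2, finrank_span_eq_card h1, Fintype.card_fin]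

/-- There are a closed connected smooth 4-manifold `M` (modelled on the 4-dimensional space `E`), a
codimension one foliation of `M` with tangent distribution `T` and a leafwise contact structure `ξ`
on it which is the direct sum of two line fields, such that `ξ` has a `C⁰` neighbourhood (the plane
fields uniformly `ε`-close to `ξ`) containing no Engel structure at all. -/
theorem result :
    ∃ (E : Type) (_ : NormedAddCommGroup E) (_ : NormedSpace ℝ E) (_ : Module.finrank ℝ E = 4)
      (M : Type) (_ : TopologicalSpace M) (_ : T2Space M) (_ : CompactSpace M)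
      (_ : ConnectedSpace M) (_ : ChartedSpace E M) (_ : IsManifold 𝓘(ℝ, E) ∞ M)
      (T ξ L₁ L₂ : (x : M) → Submodule ℝ (TangentSpace 𝓘(ℝ, E) x)),
      IsFoliation 1 T ∧ IsLeafwiseContact T ξ ∧
      IsDistribution 1 L₁ ∧ IsDistribution 1 L₂ ∧
      (∀ x : M, ξ x = L₁ x ⊔ L₂ x ∧ L₁ x ⊓ L₂ x = ⊥) ∧
      ∀ N : TangentBundle 𝓘(ℝ, E) M → ℝ, IsNormFamily N →
        ∃ ε : ℝ, 0 < ε ∧ ∀ D : (x : M) → Submodule ℝ (TangentSpace 𝓘(ℝ, E) x),
          IsEngel D → ¬ IsClose N ε ξ D := by
  refine ⟨EuclideanSpace ℝ (Fin 4), inferInstance, inferInstance, by simp,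
    BM ExOne.A, inferInstance, inferInstance, inferInstance, inferInstance, inferInstance,
    inferInstance, ds ExOne.Kt, ds ExOne.Kx, ds ExOne.Ka, ds ExOne.Kb, ExOne.foliation_t,
    ExOne.contact, ExOne.dist_a, ExOne.dist_b, fun x => ⟨ExOne.split x, ?_⟩,
    fun N hN => ExOne.main hN⟩
  have hfd : FiniteDimensional ℝ (TangentSpace (𝓡 4) x) :=
    inferInstanceAs (FiniteDimensional ℝ (EuclideanSpace ℝ (Fin 4)))
  have h1 := finrank_dist ExOne.dist_x x
  have h2 := finrank_dist ExOne.dist_a x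
  have h3 := finrank_dist ExOne.dist_b x
  have h4 := Submodule.finrank_sup_add_finrank_inf_eq (ds ExOne.Ka x) (ds ExOne.Kb x)
  rw [← ExOne.split x, h1, h2, h3] at h4
  have h5 : Module.finrank ℝ ↥(ds ExOne.Ka x ⊓ ds ExOne.Kb x) = 0 := by omega
  exact Submodule.finrank_eq_zero.1 h5

end Pool.Agent.Results.MP_d7c110_gt.NotPerturbable
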